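import Pool.Agent.Q62.UM.Stm2

set_option autoImplicit false

open Real Set MeasureTheory Topology Filter
open scoped ENNReal Polynomial

namespace Pool.Agent.Q187.UM

open Pool.Agent.Q62.UM

noncomputable section

/-- the evaluation as a ring homomorphism -/
def evH (u : ℝ) (t : ℂ) : ℂ[X][X] →+* ℂ :=
  (Polynomial.evalRingHom t).comp
    (Polynomial.mapRingHom (Polynomial.evalRingHom (Real.exp u : ℂ)))

theorem ev_eq (A : ℂ[X][X]) (u : ℝ) (t : ℂ) : ev A u t = evH u t A := rfl

theorem evH_C (u : ℝ) (t : ℂ) (B : ℂ[X]) : evH u t (Polynomial.C B) = B.eval (Real.exp u : ℂ) := by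
  simp [evH]

theorem evH_X (u : ℝ) (t : ℂ) : evH u t Polynomial.X = t := by
  simp [evH]

/-- the coefficients have degree at most `m` -/
def CD (m : ℕ) (A : ℂ[X][X]) : Prop := ∀ i, (A.coeff i).natDegree ≤ m

theorem CD_mono {m m' : ℕ} {A : ℂ[X][X]} (h : CD m A) (hm : m ≤ m') : CD m' A :=
  fun i => (h i).trans hm

theorem CD_mul {m m' : ℕ} {A B : ℂ[X][X]} (hA : CD m A) (hB : CD m' B) : CD (m + m') (A * B) := by
  intro i
  rw [Polynomial.coeff_mul]
  apply Polynomial.natDegree_sum_le_of_forall_le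
  intro x _
  exact Polynomial.natDegree_mul_le.trans (add_le_add (hA _) (hB _))

theorem CD_add {m : ℕ} {A B : ℂ[X][X]} (hA : CD m A) (hB : CD m B) : CD m (A + B) := by
  intro i
  rw [Polynomial.coeff_add]
  exact (Polynomial.natDegree_add_le _ _).trans (max_le (hA i) (hB i))

theorem CD_C {m : ℕ} {B : ℂ[X]} (hB : B.natDegree ≤ m) : CD m (Polynomial.C B) := by
  intro i
  rw [Polynomial.coeff_C]
  split_ifs
  · exact hB
  · simp

theorem CD_one : CD 0 (1 : ℂ[X][X]) := by
  rw [← Polynomial.C_1]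
  exact CD_C (by simp)

theorem CD_X : CD 0 (Polynomial.X : ℂ[X][X]) := by
  intro i
  rw [Polynomial.coeff_X]
  split_ifs <;> simp

theorem CD_pow {m : ℕ} {A : ℂ[X][X]} (hA : CD m A) (k : ℕ) : CD (k * m) (A ^ k) := by
  induction k with
  | zero => rw [pow_zero, zero_mul]; exact CD_one
  | succ k ih =>
    rw [pow_succ, Nat.succ_mul]
    exact CD_mul ih hA

theorem CD_sum {ι : Type*} (s : Finset ι) (f : ι → ℂ[X][X]) (m : ℕ) (h : ∀ x ∈ s, CD m (f x)) :
    CD m (∑ x ∈ s, f x) := by
  intro i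
  rw [Polynomial.finsetSum_coeff]
  apply Polynomial.natDegree_sum_le_of_forall_le
  intro x hx
  exact h x hx i

/-- `t (a + r (t + e / t) / c)` as a polynomial -/
def px (a c e : ℂ) : ℂ[X][X] :=
  Polynomial.C (Polynomial.C a) * Polynomial.X +
    Polynomial.C (Polynomial.C c * Polynomial.X) * (Polynomial.X ^ 2 + Polynomial.C (Polynomial.C e))

theorem px_deg (a c e : ℂ) : (px a c e).natDegree ≤ 2 := by
  unfold px
  apply (Polynomial.natDegree_add_le _ _).trans
  apply max_le
  · apply Polynomial.natDegree_mul_le.trans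
    rw [Polynomial.natDegree_C, Polynomial.natDegree_X]
    norm_num
  · apply Polynomial.natDegree_mul_le.trans
    rw [Polynomial.natDegree_C, zero_add]
    apply (Polynomial.natDegree_add_le _ _).trans
    rw [Polynomial.natDegree_X_pow, Polynomial.natDegree_C]
    norm_num

theorem px_CD (a c e : ℂ) : CD 1 (px a c e) := by
  unfold px
  apply CD_add
  · exact CD_mono (CD_mul (CD_C (m := 0) (by simp)) CD_X) (by norm_num)
  · refine CD_mono (CD_mul (CD_C (m := 1) ?_) (CD_add (m := 0) ?_ ?_)) (by norm_num)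
    · exact (Polynomial.natDegree_C_mul_le _ _).trans Polynomial.natDegree_X.le
    · exact CD_mono (CD_pow CD_X 2) (by norm_num)
    · exact CD_C (by simp)

theorem px_ev (a c e : ℂ) (u : ℝ) (t : ℂ) :
    evH u t (px a c e) = a * t + c * (Real.exp u : ℂ) * (t ^ 2 + e) := by
  unfold px
  rw [map_add, map_mul, map_mul, map_add, map_pow, evH_X, evH_C, evH_C, evH_C]
  simp

theorem polyG (n : ℕ) (P : MvPolynomial (Fin 2) ℝ) (p : ℝ × ℝ) (hP : P.totalDegree ≤ n) :
    ∃ G : ℂ[X][X], G.natDegree ≤ 2 * n ∧ CD n G ∧ ∀ z : ℂ,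
      ((MvPolynomial.eval ![p.1 + Real.exp z.re * Real.cos z.im,
        p.2 + Real.exp z.re * Real.sin z.im] P : ℝ) : ℂ) *
        Complex.exp (z.im * Complex.I) ^ n = evH z.re (Complex.exp (z.im * Complex.I)) G := by
  classical
  let A : ℂ[X][X] := px (p.1 : ℂ) (1 / 2) 1
  let B : ℂ[X][X] := px (p.2 : ℂ) (1 / (2 * Complex.I)) (-1)
  have hm : ∀ m ∈ P.support, m 0 + m 1 ≤ n := by
    intro m hm
    have h := (MvPolynomial.le_totalDegree hm).trans hP
    rw [Finsupp.sum_fintype _ _ (fun _ => rfl), Fin.sum_univ_two] at h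
    exact h
  refine ⟨∑ m ∈ P.support, Polynomial.C (Polynomial.C ((P.coeff m : ℝ) : ℂ)) *
    (Polynomial.X ^ (n - (m 0 + m 1)) * (A ^ (m 0) * B ^ (m 1))), ?_, ?_, ?_⟩
  · apply Polynomial.natDegree_sum_le_of_forall_le
    intro m hmm
    apply Polynomial.natDegree_mul_le.trans
    rw [Polynomial.natDegree_C, zero_add]
    apply Polynomial.natDegree_mul_le.trans
    have h1 : (Polynomial.X ^ (n - (m 0 + m 1)) : ℂ[X][X]).natDegree ≤ n - (m 0 + m 1) :=
      (Polynomial.natDegree_X_pow _).le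
    have h2 : (A ^ (m 0)).natDegree ≤ m 0 * 2 :=
      Polynomial.natDegree_pow_le.trans (Nat.mul_le_mul_left _ (px_deg _ _ _))
    have h3 : (B ^ (m 1)).natDegree ≤ m 1 * 2 :=
      Polynomial.natDegree_pow_le.trans (Nat.mul_le_mul_left _ (px_deg _ _ _))
    have h4 : (A ^ (m 0) * B ^ (m 1)).natDegree ≤ m 0 * 2 + m 1 * 2 :=
      Polynomial.natDegree_mul_le.trans (add_le_add h2 h3)
    have h5 := hm m hmm
    omega
  · apply CD_sum
    intro m hmm
    have h5 := hm m hmm
    refine CD_mono (CD_mul (CD_C (m := 0) (by simp)) (CD_mul (CD_pow CD_X _)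
      (CD_mul (CD_pow (px_CD _ _ _) _) (CD_pow (px_CD _ _ _) _)))) ?_
    omega
  · intro z
    set θ : ℝ := z.im with hθ
    set t : ℂ := Complex.exp (θ * Complex.I) with ht
    have ht0 : t ≠ 0 := Complex.exp_ne_zero _
    have htt : t * Complex.exp (-(θ * Complex.I)) = 1 := by
      rw [ht, ← Complex.exp_add, add_neg_cancel, Complex.exp_zero]
    have hcos : t * ((Real.cos θ : ℝ) : ℂ) = (t ^ 2 + 1) / 2 := by
      rw [Complex.ofReal_cos, Complex.cos, ← ht, neg_mul]
      linear_combination htt / 2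
    have hsin : t * ((Real.sin θ : ℝ) : ℂ) = 1 / (2 * Complex.I) * (t ^ 2 + -1) := by
      rw [Complex.ofReal_sin, Complex.sin, ← ht, neg_mul]
      have hI : (1 : ℂ) / (2 * Complex.I) = - Complex.I / 2 := by
        field_simp
        rw [Complex.I_sq]
        ring
      rw [hI]
      linear_combination (Complex.I / 2) * htt
    have hA : evH z.re t A = t * ((p.1 + Real.exp z.re * Real.cos θ : ℝ) : ℂ) := by
      rw [px_ev]
      push_cast
      push_cast at hcos
      linear_combination (-(Complex.exp (z.re : ℂ))) * hcos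
    have hB : evH z.re t B = t * ((p.2 + Real.exp z.re * Real.sin θ : ℝ) : ℂ) := by
      rw [px_ev]
      push_cast
      push_cast at hsin
      linear_combination (-(Complex.exp (z.re : ℂ))) * hsin
    rw [map_sum, MvPolynomial.eval_eq', Complex.ofReal_sum, Finset.sum_mul]
    apply Finset.sum_congr rfl
    intro m hmm
    have h5 := hm m hmm
    rw [map_mul, map_mul, map_mul, map_pow, map_pow, map_pow, evH_X, evH_C, hA, hB,
      Polynomial.eval_C, Fin.prod_univ_two, mul_pow, mul_pow]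
    have e : t ^ n = t ^ (n - (m 0 + m 1)) * (t ^ (m 0) * t ^ (m 1)) := by
      rw [← pow_add, ← pow_add]
      congr 1
      omega
    rw [e]
    simp only [Matrix.cons_val_zero, Matrix.cons_val_one, Complex.ofReal_mul, Complex.ofReal_pow]
    ring

theorem t_R1 : S_R1 := by
  intro n P Q p hP hQ
  obtain ⟨G1, a1, b1, c1⟩ := polyG n P p hP
  obtain ⟨G2, a2, b2, c2⟩ := polyG n Q p hQ
  refine ⟨G1 + Polynomial.C (Polynomial.C Complex.I) * G2, ?_, ?_, ?_⟩
  · apply (Polynomial.natDegree_add_le _ _).trans (max_le a1 _)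
    apply Polynomial.natDegree_mul_le.trans
    rw [Polynomial.natDegree_C, zero_add]
    exact a2
  · exact CD_add b1 (CD_mono (CD_mul (CD_C (m := 0) (by simp)) b2) (by omega))
  · intro z
    rw [ev_eq, map_add, map_mul, evH_C, ← c1 z, ← c2 z, Polynomial.eval_C]
    unfold FF
    have e : Complex.exp (-(n * (z.im * Complex.I))) * Complex.exp (z.im * Complex.I) ^ n = 1 := by
      rw [← Complex.exp_nat_mul, ← Complex.exp_add, neg_add_cancel, Complex.exp_zero]
    linear_combination (-((MvPolynomial.eval ![p.1 + Real.exp z.re * Real.cos z.im,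
        p.2 + Real.exp z.re * Real.sin z.im] P : ℝ) : ℂ) - Complex.I *
        ((MvPolynomial.eval ![p.1 + Real.exp z.re * Real.cos z.im,
        p.2 + Real.exp z.re * Real.sin z.im] Q : ℝ) : ℂ)) * e

end

end Pool.Agent.Q187.UM
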